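import Pool.Agent.Helper99.SI.StK

set_option autoImplicit false

namespace Pool.Agent.Helper72.SI

open Pool.Agent.Helper99.SI

theorem li_aux {M : Type} [AddCommGroup M] [Module ℂ M] (V : Submodule ℂ M) (d : ℕ)
    (f : Module.Basis (Fin d) ℂ V) : LinearIndependent ℂ (fun l => ((f l : V) : M)) := by
  have h2 : LinearIndependent ℂ (V.subtype ∘ f) :=
    f.linearIndependent.map' V.subtype (Submodule.ker_subtype V)
  exact h2

/-- A basis with prescribed vectors and coordinates. -/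
theorem abs_basis {X ι : Type} [AddCommGroup X] [Module ℂ X] [DecidableEq ι] (v : ι → X)
    (c : ι → X →ₗ[ℂ] ℂ) (hcv : ∀ i j, c i (v j) = if i = j then 1 else 0)
    (hfin : ∀ x, {i | c i x ≠ 0}.Finite) (K : Submodule ℂ X) (hK : ∀ x, x ∈ K ↔ ∀ i, c i x = 0)
    (hKf : Module.Finite ℂ K) :
    ∃ (r : ℕ) (e : Module.Basis (ι ⊕ Fin r) ℂ X),
      (∀ i, e (Sum.inl i) = v i) ∧ (∀ x i, e.repr x (Sum.inl i) = c i x) ∧
      ∀ l i, c i (e (Sum.inr l)) = 0 := by
  have hfree : Module.Free ℂ K := Module.Free.of_divisionRing ℂ K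
  obtain ⟨d, ⟨f⟩⟩ : ∃ d : ℕ, Nonempty (Module.Basis (Fin d) ℂ K) := ⟨_, ⟨Module.finBasis ℂ K⟩⟩
  have hfK : ∀ l i, c i ((f l : K) : X) = 0 := fun l => (hK _).1 (f l).2
  have li1 : LinearIndependent ℂ v := by
    rw [linearIndependent_iff']
    intro s g hg i hi
    have h1 := congrArg (c i) hg
    rw [map_sum, map_zero] at h1
    simp only [map_smul, hcv, smul_eq_mul, mul_ite, mul_one, mul_zero] at h1
    rwa [Finset.sum_ite_eq, if_pos hi] at h1
  have li2 : LinearIndependent ℂ (fun l => ((f l : K) : X)) := li_aux K d f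
  have hdis : Disjoint (Submodule.span ℂ (Set.range v))
      (Submodule.span ℂ (Set.range (fun l => ((f l : K) : X)))) := by
    rw [Submodule.disjoint_def]
    intro x hx1 hx2
    have h2 : x ∈ K := by
      have h3 : Submodule.span ℂ (Set.range (fun l => ((f l : K) : X))) ≤ K := by
        rw [Submodule.span_le]
        rintro _ ⟨l, rfl⟩
        exact (f l).2
      exact h3 hx2
    rw [hK] at h2
    obtain ⟨p, hp⟩ := Finsupp.mem_span_range_iff_exists_finsupp.1 hx1
    have h3 : ∀ i, p i = 0 := by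
      intro i
      have h4 := h2 i
      rw [← hp, Finsupp.sum, map_sum] at h4
      simp only [map_smul, hcv, smul_eq_mul, mul_ite, mul_one, mul_zero] at h4
      rw [Finset.sum_ite_eq] at h4
      by_contra h5
      rw [if_pos (Finsupp.mem_support_iff.2 h5)] at h4
      exact h5 h4
    have h4 : p = 0 := Finsupp.ext h3
    rw [← hp, h4, Finsupp.sum_zero_index]
  have hspan : ⊤ ≤ Submodule.span ℂ (Set.range (Sum.elim v (fun l => ((f l : K) : X)))) := by
    intro x _
    rw [Set.Sum.elim_range, Submodule.span_union]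
    obtain ⟨y, hyd⟩ : ∃ y : X, y = ∑ i ∈ (hfin x).toFinset, c i x • v i := ⟨_, rfl⟩
    have hy : y ∈ Submodule.span ℂ (Set.range v) := by
      rw [hyd]
      apply Submodule.sum_mem
      intro i _
      exact Submodule.smul_mem _ _ (Submodule.subset_span ⟨i, rfl⟩)
    have hz : x - y ∈ K := by
      rw [hK]
      intro i
      rw [map_sub, hyd, map_sum]
      simp only [map_smul, hcv, smul_eq_mul, mul_ite, mul_one, mul_zero]
      rw [Finset.sum_ite_eq]
      by_cases h5 : c i x = 0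
      · rw [if_neg, h5, sub_zero]
        rw [Set.Finite.mem_toFinset]
        exact fun h6 => h6 h5
      · rw [if_pos, sub_self]
        rw [Set.Finite.mem_toFinset]
        exact h5
    have hz2 : x - y ∈ Submodule.span ℂ (Set.range (fun l => ((f l : K) : X))) := by
      have h2 := f.sum_repr ⟨_, hz⟩
      have h4 := congrArg (fun s : K => (s : X)) h2
      simp only [Submodule.coe_sum, Submodule.coe_smul] at h4
      rw [← h4]
      apply Submodule.sum_mem
      intro l _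
      exact Submodule.smul_mem _ _ (Submodule.subset_span ⟨l, rfl⟩)
    have hxy : x = y + (x - y) := by abel
    rw [hxy]
    exact Submodule.add_mem_sup hy hz2
  obtain ⟨e, he⟩ : ∃ e : Module.Basis (ι ⊕ Fin d) ℂ X,
      ∀ s, e s = Sum.elim v (fun l => ((f l : K) : X)) s :=
    ⟨Module.Basis.mk (li1.sum_type li2 hdis) hspan, fun s => by rw [Module.Basis.mk_apply]⟩
  refine ⟨d, e, fun i => he (Sum.inl i), ?_, ?_⟩
  · intro x i
    have h1 : e.coord (Sum.inl i) = c i := by
      apply e.ext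
      rintro (j | l)
      · rw [Module.Basis.coord_apply, Module.Basis.repr_self, he, Sum.elim_inl, hcv,
          Finsupp.single_apply]
        by_cases h : i = j
        · subst h
          simp
        · rw [if_neg h, if_neg]
          intro h'
          exact h (Sum.inl_injective h').symm
      · rw [Module.Basis.coord_apply, Module.Basis.repr_self, he, Sum.elim_inr, hfK,
          Finsupp.single_apply, if_neg (by simp)]
    have h2 := LinearMap.congr_fun h1 x
    rwa [Module.Basis.coord_apply] at h2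
  · intro l i
    rw [he, Sum.elim_inr]
    exact hfK l i

/-- A basis of a space of finitely supported functions that contains almost all the delta
functions. -/
theorem exists_basis {α : Type} (Lng : α → Prop) (hfin : {ν : α | ¬ Lng ν}.Finite)
    (X : Submodule ℂ (α →₀ ℂ)) (hX : ∀ ν, Lng ν → Finsupp.single ν (1 : ℂ) ∈ X) :
    ∃ (r : ℕ) (e : Module.Basis ({ν : α // Lng ν} ⊕ Fin r) ℂ X),
      (∀ ν, ((e (Sum.inl ν) : X) : α →₀ ℂ) = Finsupp.single ν.1 1) ∧
      (∀ (x : X) (ν : {ν : α // Lng ν}), e.repr x (Sum.inl ν) = (x : α →₀ ℂ) ν.1) ∧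
      ∀ (l : Fin r) (ν : α), Lng ν → ((e (Sum.inr l) : X) : α →₀ ℂ) ν = 0 := by
  classical
  have hf0 : Finite {ν : α | ¬ Lng ν} := hfin
  have hf1 : Module.Finite ℂ (Finsupp.supported ℂ ℂ {ν : α | ¬ Lng ν}) :=
    Module.Finite.equiv (Finsupp.supportedEquivFinsupp (M := ℂ) (R := ℂ) {ν : α | ¬ Lng ν}).symm
  have hcx : ∀ (i : {ν : α // Lng ν}) (x : X),
      ((Finsupp.lapply i.1 : (α →₀ ℂ) →ₗ[ℂ] ℂ) ∘ₗ X.subtype) x = (x : α →₀ ℂ) i.1 :=
    fun i x => rfl
  obtain ⟨K, hK⟩ : ∃ K : Submodule ℂ X, K =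
      (Finsupp.supported ℂ ℂ {ν : α | ¬ Lng ν}).comap X.subtype := ⟨_, rfl⟩
  have hKf : Module.Finite ℂ K := by
    let g : K →ₗ[ℂ] (Finsupp.supported ℂ ℂ {ν : α | ¬ Lng ν}) :=
      LinearMap.codRestrict _ (X.subtype ∘ₗ K.subtype) (fun x => hK.le x.2)
    apply Module.Finite.of_injective g
    intro x y h
    have h1 := congrArg Subtype.val h
    exact Subtype.ext (Subtype.ext h1)
  obtain ⟨r, e, h1, h2, h3⟩ := abs_basis (X := X) (ι := {ν : α // Lng ν})
    (fun ν => ⟨Finsupp.single ν.1 1, hX ν.1 ν.2⟩)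
    (fun i => (Finsupp.lapply i.1 : (α →₀ ℂ) →ₗ[ℂ] ℂ) ∘ₗ X.subtype)
    (by
      intro i j
      rw [hcx, Finsupp.single_apply]
      by_cases h : i = j
      · subst h
        simp
      · rw [if_neg h, if_neg]
        intro h'
        exact h (Subtype.ext h').symm)
    (by
      intro x
      have h1 : {i : {ν : α // Lng ν} | (x : α →₀ ℂ) i.1 ≠ 0}.Finite := by
        apply Set.Finite.preimage (Subtype.val_injective.injOn) (s := {ν : α | (x : α →₀ ℂ) ν ≠ 0})
        exact (x : α →₀ ℂ).hasFiniteSupport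
      exact h1)
    K
    (by
      intro x
      rw [hK, Submodule.mem_comap, Finsupp.mem_supported']
      simp only [hcx]
      constructor
      · rintro h i
        exact h i.1 (fun h' => h' i.2)
      · rintro h ν hν
        exact h ⟨ν, not_not.1 hν⟩)
    hKf
  refine ⟨r, e, fun ν => ?_, fun x ν => ?_, fun l ν hν => ?_⟩
  · rw [h1]
  · rw [h2, hcx]
  · have := h3 l ⟨ν, hν⟩
    rwa [hcx] at this

/-- Sums over words by length. -/
theorem sum_words {n : ℕ} (N k : ℕ) (g : W n → ℂ) (Wd : Finset (W n))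
    (hWd : ∀ ν, ν ∈ Wd ↔ N ≤ ν.length ∧ ν.length < N + k) :
    ∑ i ∈ Finset.range k, ∑ p : Fin (N + i) → Fin n, g (List.ofFn p) = ∑ ν ∈ Wd, g ν := by
  classical
  rw [Finset.sum_sigma']
  refine Finset.sum_bij (fun x _ => List.ofFn x.2) ?_ ?_ ?_ ?_
  · rintro ⟨i, p⟩ hx
    rw [Finset.mem_sigma, Finset.mem_range] at hx
    rw [hWd, List.length_ofFn]
    exact ⟨by simp, by have := hx.1; simp only at this ⊢; omega⟩
  · rintro ⟨i, p⟩ _ ⟨j, q⟩ _ h
    simp only at h
    have h1 : N + i = N + j := by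
      have := congrArg List.length h
      rwa [List.length_ofFn, List.length_ofFn] at this
    have h2 : i = j := by omega
    subst h2
    rw [List.ofFn_injective h]
  · intro ν hν
    rw [hWd] at hν
    obtain ⟨i, hi⟩ : ∃ i, ν.length = N + i := ⟨ν.length - N, by omega⟩
    refine ⟨⟨i, fun t => ν.get (Fin.cast hi.symm t)⟩, ?_, ?_⟩
    · rw [Finset.mem_sigma, Finset.mem_range]
      exact ⟨by simp only; omega, Finset.mem_univ _⟩
    · have h1 := List.ofFn_congr hi ν.get
      rw [List.ofFn_get] at h1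
      exact h1.symm
  · rintro ⟨i, p⟩ _
    rfl

theorem hK6 (h1 : StA0) (h2 : StA3) (h3 : StA5) (h4 : StK4) : StK6 := by
  classical
  intro n L _ _ _ _ _ D a b z hb hz
  obtain ⟨_, hmul, _⟩ := h1 L D.b
  obtain ⟨hli, hcfemb, hembcf, hembS⟩ := h2 n L D
  obtain ⟨hSS, _, hpS, _⟩ := h3 n L D
  set β := D.b.ev z with hβ
  have hw : ∀ μ ν : W n, D.w (μ ++ ν) = D.w μ * D.w ν := by
    intro μ ν
    simp [Sys.w, wd]
  have hwS : ∀ μ, D.w μ ∈ D.S := fun μ => Submodule.subset_span ⟨μ, rfl⟩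
  have hembw : ∀ μ, D.emb (Finsupp.single μ 1) = D.w μ := by
    intro μ
    rw [Sys.emb, Finsupp.linearCombination_single, one_smul]
  let U : Submodule ℂ L :=
    { carrier := {s | s ∈ D.S ∧ ∀ μ, β (D.w μ) * s ∈ D.S}
      add_mem' := by
        rintro s t ⟨hs, hs'⟩ ⟨ht, ht'⟩
        refine ⟨D.S.add_mem hs ht, fun μ => ?_⟩
        rw [mul_add]
        exact D.S.add_mem (hs' μ) (ht' μ)
      zero_mem' := ⟨D.S.zero_mem, fun μ => by rw [mul_zero]; exact D.S.zero_mem⟩
      smul_mem' := by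
        rintro c s ⟨hs, hs'⟩
        refine ⟨D.S.smul_mem c hs, fun μ => ?_⟩
        rw [mul_smul_comm]
        exact D.S.smul_mem c (hs' μ) }
  have hU : ∀ s, s ∈ U ↔ s ∈ D.S ∧ ∀ μ, β (D.w μ) * s ∈ D.S := fun s => Iff.rfl
  have hU0 : ∀ ν : W n, D.m0 ≤ ν.length → D.w ν ∈ U := by
    intro ν hν
    refine (hU _).2 ⟨hwS ν, fun μ => ?_⟩
    have h5 : β (D.w μ) = ∑ᶠ j : ℤ, z ^ j • D.b.p j (D.w μ) := rfl
    rw [h5, finsum_eq_sum _ (D.b.fin' (fun j => z ^ j) (D.w μ)), Finset.sum_mul]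
    apply Submodule.sum_mem
    intro j _
    rw [smul_mul_assoc]
    exact D.S.smul_mem _ (hpS _ (hwS μ) _ (Submodule.subset_span ⟨ν, hν, rfl⟩) j)
  have hUr : ∀ s ∈ U, s * D.w b ∈ U := by
    intro s hs
    refine (hU _).2 ⟨hSS _ hs.1 _ (hwS b), fun μ => ?_⟩
    rw [← mul_assoc]
    exact hSS _ (hs.2 μ) _ (hwS b)
  have hUl : ∀ s ∈ U, β (D.w a) * s ∈ U := by
    intro s hs
    refine (hU _).2 ⟨hs.2 a, fun μ => ?_⟩
    rw [← mul_assoc, ← hmul z _ _ hz, ← hw]
    exact hs.2 _
  let X : Submodule ℂ (W n →₀ ℂ) := U.comap D.emb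
  have hXm : ∀ x, x ∈ X ↔ D.emb x ∈ U := fun x => Iff.rfl
  have hfin : {ν : W n | ¬ D.m0 ≤ ν.length}.Finite := by
    have := List.finite_length_lt (Fin n) D.m0
    refine this.subset ?_
    intro ν hν
    exact not_le.1 hν
  obtain ⟨r, e, he1, he2, he3⟩ := exists_basis (fun ν : W n => D.m0 ≤ ν.length) hfin X (by
    intro ν hν
    rw [hXm, hembw]
    exact hU0 ν hν)
  -- the operators
  let A0 : (W n →₀ ℂ) →ₗ[ℂ] (W n →₀ ℂ) := D.cf ∘ₗ (LinearMap.mulLeft ℂ (β (D.w a))) ∘ₗ D.emb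
  let B0 : (W n →₀ ℂ) →ₗ[ℂ] (W n →₀ ℂ) := D.cf ∘ₗ (LinearMap.mulRight ℂ (D.w b)) ∘ₗ D.emb
  have hA0 : ∀ x, A0 x = D.cf (β (D.w a) * D.emb x) := fun x => rfl
  have hB0 : ∀ x, B0 x = D.cf (D.emb x * D.w b) := fun x => rfl
  have hA1 : ∀ x ∈ X, D.emb (A0 x) = β (D.w a) * D.emb x := by
    intro x hx
    rw [hA0]
    exact hembcf _ (hUl _ hx).1
  have hB1 : ∀ x ∈ X, D.emb (B0 x) = D.emb x * D.w b := by
    intro x hx
    rw [hB0]
    exact hembcf _ (hUr _ hx).1
  have hAX : ∀ x ∈ X, A0 x ∈ X := by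
    intro x hx
    rw [hXm, hA1 x hx]
    exact hUl _ hx
  have hBX : ∀ x ∈ X, B0 x ∈ X := by
    intro x hx
    rw [hXm, hB1 x hx]
    exact hUr _ hx
  let A : X →ₗ[ℂ] X := A0.restrict hAX
  let B : X →ₗ[ℂ] X := B0.restrict hBX
  have hAc : ∀ x : X, ((A x : X) : W n →₀ ℂ) = A0 x := fun x => rfl
  have hBc : ∀ x : X, ((B x : X) : W n →₀ ℂ) = B0 x := fun x => rfl
  have hAB : A ∘ₗ B = B ∘ₗ A := by
    ext1 x
    apply Subtype.ext
    change A0 (B0 x) = B0 (A0 x)
    rw [hA0, hB0 (A0 x), hB1 _ x.2, hA1 _ x.2, mul_assoc]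
  have hBm : ∀ x : W n →₀ ℂ, B0 x = Finsupp.mapDomain (fun μ => μ ++ b) x := by
    have h5 : B0 = Finsupp.lmapDomain ℂ ℂ (fun μ : W n => μ ++ b) := by
      apply Finsupp.lhom_ext'
      intro μ
      ext1
      simp only [LinearMap.comp_apply, Finsupp.lsingle_apply, Finsupp.lmapDomain_apply,
        Finsupp.mapDomain_single]
      rw [hB0, hembw, ← hw, ← hembw, hcfemb]
    intro x
    rw [h5, Finsupp.lmapDomain_apply]
  refine ⟨D.m0, fun N hN => ?_⟩
  -- the index set
  let Wd : ℕ → Finset (W n) := fun M => (List.finite_length_lt (Fin n) M).toFinset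
  have hWd : ∀ M (ν : W n), ν ∈ Wd M ↔ ν.length < M := by
    intro M ν
    simp only [Wd, Set.Finite.mem_toFinset]
    exact Iff.rfl
  let J : Finset ({ν : W n // D.m0 ≤ ν.length} ⊕ Fin r) :=
    ((Wd (N + b.length)).subtype (fun ν => D.m0 ≤ ν.length)).disjSum Finset.univ
  have hJl : ∀ ν : {ν : W n // D.m0 ≤ ν.length}, Sum.inl ν ∈ J ↔ ν.1.length < N + b.length := by
    intro ν
    rw [Finset.inl_mem_disjSum, Finset.mem_subtype, hWd]
  have hJr : ∀ l : Fin r, Sum.inr l ∈ J := by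
    intro l
    rw [Finset.inr_mem_disjSum]
    exact Finset.mem_univ l
  have happ : ∀ ν : {ν : W n // D.m0 ≤ ν.length}, D.m0 ≤ (ν.1 ++ b).length := by
    intro ν
    rw [List.length_append]
    exact le_trans ν.2 (Nat.le_add_right _ _)
  have hBe : ∀ ν : {ν : W n // D.m0 ≤ ν.length},
      B (e (Sum.inl ν)) = e (Sum.inl ⟨ν.1 ++ b, happ ν⟩) := by
    intro ν
    apply Subtype.ext
    rw [hBc, he1, he1, hBm, Finsupp.mapDomain_single]
  have key := h4 X _ e A B hAB J
  have hR : ∑ i ∈ J, ∑ k ∈ (e.repr (A (e i))).support \ J,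
      (e.repr (B (e k))) i * (e.repr (A (e i))) k = 0 := by
    apply Finset.sum_eq_zero
    intro i hi
    apply Finset.sum_eq_zero
    rintro (κ | l) hk
    · have hk' := (Finset.mem_sdiff.1 hk).2
      rw [hJl] at hk'
      rw [hBe, Module.Basis.repr_self, Finsupp.single_apply, if_neg, zero_mul]
      rintro rfl
      rw [hJl] at hi
      simp only [List.length_append] at hi
      omega
    · exact absurd (hJr l) (Finset.mem_sdiff.1 hk).2
  rw [hR] at key
  have hL : ∑ i ∈ J, ∑ k ∈ (e.repr (B (e i))).support \ J,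
      (e.repr (A (e k))) i * (e.repr (B (e i))) k =
      ∑ ν ∈ (Wd (N + b.length)).subtype (fun ν => D.m0 ≤ ν.length),
        (if N ≤ ν.1.length then D.cf (β (D.w a) * D.w (ν.1 ++ b)) ν.1 else 0) := by
    rw [Finset.sum_disjSum]
    have hz2 : ∑ l ∈ (Finset.univ : Finset (Fin r)),
        ∑ k ∈ (e.repr (B (e (Sum.inr l)))).support \ J,
          (e.repr (A (e k))) (Sum.inr l) * (e.repr (B (e (Sum.inr l)))) k = 0 := by
      apply Finset.sum_eq_zero
      intro l _
      apply Finset.sum_eq_zero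
      rintro (κ | l') hk
      · exfalso
        have hk1 := (Finset.mem_sdiff.1 hk).1
        have hk2 := (Finset.mem_sdiff.1 hk).2
        rw [hJl] at hk2
        rw [Finsupp.mem_support_iff, he2, hBc, hBm] at hk1
        have hk3 := Finsupp.mapDomain_support (Finsupp.mem_support_iff.2 hk1)
        obtain ⟨μ, hμ, hμκ⟩ := Finset.mem_image.1 hk3
        have h5 : ¬ D.m0 ≤ μ.length := by
          intro h6
          exact Finsupp.mem_support_iff.1 hμ (he3 l μ h6)
        have h6 := congrArg List.length hμκ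
        simp only [List.length_append] at h6
        omega
      · exact absurd (hJr l') (Finset.mem_sdiff.1 hk).2
    rw [hz2, add_zero]
    apply Finset.sum_congr rfl
    intro ν _
    rw [hBe, Module.Basis.repr_self, Finsupp.support_single_ne_zero _ one_ne_zero]
    split_ifs with hνN
    · have h5 : ({Sum.inl ⟨ν.1 ++ b, happ ν⟩} : Finset ({ν : W n // D.m0 ≤ ν.length} ⊕ Fin r)) \ J
          = {Sum.inl ⟨ν.1 ++ b, happ ν⟩} := by
        rw [Finset.sdiff_eq_self_iff_disjoint, Finset.disjoint_singleton_left, hJl]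
        simp only [List.length_append]
        omega
      rw [h5, Finset.sum_singleton, Finsupp.single_eq_same, mul_one, he2, hAc, he1, hA0, hembw]
    · have h5 : ({Sum.inl ⟨ν.1 ++ b, happ ν⟩} : Finset ({ν : W n // D.m0 ≤ ν.length} ⊕ Fin r)) \ J
          = ∅ := by
        rw [Finset.sdiff_eq_empty_iff_subset, Finset.singleton_subset_iff, hJl]
        simp only [List.length_append]
        omega
      rw [h5, Finset.sum_empty]
  rw [hL] at key
  rw [← key]
  have h5 := Finset.sum_subtype_eq_sum_filter (s := Wd (N + b.length))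
    (p := fun ν : W n => D.m0 ≤ ν.length)
    (fun ν => if N ≤ ν.length then D.cf (β (D.w a) * D.w (ν ++ b)) ν else 0)
  rw [h5, ← Finset.sum_filter]
  exact sum_words N b.length (fun ν => D.cf (β (D.w a) * D.w (ν ++ b)) ν) _ (by
    intro ν
    rw [Finset.mem_filter, Finset.mem_filter, hWd]
    constructor
    · rintro ⟨⟨h6, _⟩, h7⟩
      exact ⟨h7, h6⟩
    · rintro ⟨h6, h7⟩
      exact ⟨⟨h7, hN.trans h6⟩, h6⟩)

end Pool.Agent.Helper72.SI
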