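import Pool.Agent.Helper99.SI.StS

set_option autoImplicit false

namespace Pool.Agent.Helper72.SI

open Filter Topology Pool.Agent.Helper99.SI

theorem entry_eq {H : Type} [NormedAddCommGroup H] [InnerProductSpace ℂ H] {ι : Type} [Fintype ι]
    [DecidableEq ι] {e : ι → H} (he : Orthonormal ℂ e) (s : ι → ℂ) (i : ι) :
    inner ℂ (e i) (∑ k, s k • e k) = s i := by
  rw [inner_sum]
  simp only [inner_smul_right]
  rw [Finset.sum_eq_single i]
  · rw [inner_self_eq_norm_sq_to_K, he.1 i]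
    simp
  · intro k _ hk
    rw [he.2 hk.symm, mul_zero]
  · intro h
    exact absurd (Finset.mem_univ i) h

theorem hS2 : StS2 := by
  intro H _ _ _ ι _ _ e he X _ U T S hT hco hS x₀ hx₀
  obtain ⟨c, hc, hcz⟩ := hco x₀ hx₀
  obtain ⟨w₀, hw₀, hTw₀⟩ := hS x₀ hx₀
  -- the basic estimate
  have key : ∀ x ∈ U, ‖T x - T x₀‖ ≤ c / 2 → ∀ i j, ‖S x i j - S x₀ i j‖ ≤
      ((‖T x₀‖ + c / 2) * (2 / c) + 1) * ‖e j + w₀ j‖ * ‖T x - T x₀‖ := by
    intro x hx hδ i j
    obtain ⟨w, hw, hTw⟩ := hS x hx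
    set δ := ‖T x - T x₀‖ with hδd
    have hδ0 : 0 ≤ δ := norm_nonneg _
    set u := e j + w₀ j with hu
    set d := w j - w₀ j with hd
    have hdi : ∀ k, inner ℂ (e k) d = 0 := by
      intro k
      rw [hd, inner_sub_right, hw, hw₀, sub_zero]
    have hdi' : ∀ k, inner ℂ d (e k) = 0 := by
      intro k
      rw [← inner_conj_symm, hdi, map_zero]
    have hsum : ∀ s : ι → ℂ, inner ℂ d (∑ k, s k • e k) = 0 := by
      intro s
      rw [inner_sum]
      apply Finset.sum_eq_zero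
      intro k _
      rw [inner_smul_right, hdi', mul_zero]
    have h1 : inner ℂ d (T x (e j + w j)) = 0 := by rw [hTw]; exact hsum _
    have h2 : inner ℂ d (T x₀ u) = 0 := by rw [hu, hTw₀]; exact hsum _
    have hud : e j + w j = u + d := by rw [hu, hd]; abel
    have h3 : inner ℂ d (T x d) = - inner ℂ d ((T x - T x₀) u) := by
      rw [hud, map_add, inner_add_right] at h1
      rw [sub_apply, inner_sub_right, h2, sub_zero]
      exact eq_neg_of_add_eq_zero_right h1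
    have h4 : (inner ℂ d (T x d)).re ≤ ‖d‖ * (δ * ‖u‖) := by
      calc (inner ℂ d (T x d)).re ≤ ‖inner ℂ d (T x d)‖ := Complex.re_le_norm _
        _ = ‖inner ℂ d ((T x - T x₀) u)‖ := by rw [h3, norm_neg]
        _ ≤ ‖d‖ * ‖(T x - T x₀) u‖ := norm_inner_le_norm _ _
        _ ≤ ‖d‖ * (δ * ‖u‖) :=
            mul_le_mul_of_nonneg_left ((T x - T x₀).le_opNorm u) (norm_nonneg d)
    have h5 : c / 2 * ‖d‖ ^ 2 ≤ (inner ℂ d (T x d)).re := by
      have h6 : inner ℂ d (T x d) = inner ℂ d (T x₀ d) + inner ℂ d ((T x - T x₀) d) := by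
        rw [sub_apply, inner_sub_right]
        ring
      have h7 : -(‖d‖ * (δ * ‖d‖)) ≤ (inner ℂ d ((T x - T x₀) d)).re := by
        have h8 : |(inner ℂ d ((T x - T x₀) d)).re| ≤ ‖d‖ * (δ * ‖d‖) :=
          (Complex.abs_re_le_norm _).trans ((norm_inner_le_norm _ _).trans
            (mul_le_mul_of_nonneg_left ((T x - T x₀).le_opNorm d) (norm_nonneg d)))
        exact (abs_le.1 h8).1
      rw [h6, Complex.add_re]
      have h9 := hcz d hdi
      have h10 : ‖d‖ * (δ * ‖d‖) ≤ c / 2 * ‖d‖ ^ 2 := by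
        calc ‖d‖ * (δ * ‖d‖) = δ * ‖d‖ ^ 2 := by ring
          _ ≤ c / 2 * ‖d‖ ^ 2 := mul_le_mul_of_nonneg_right hδ (by positivity)
      linarith
    have h6 : c / 2 * ‖d‖ ≤ δ * ‖u‖ := by
      rcases (norm_nonneg d).eq_or_lt with h0 | h0
      · rw [← h0, mul_zero]
        positivity
      · have h7 : ‖d‖ * (c / 2 * ‖d‖) ≤ ‖d‖ * (δ * ‖u‖) := by
          have := h5.trans h4
          calc ‖d‖ * (c / 2 * ‖d‖) = c / 2 * ‖d‖ ^ 2 := by ring
            _ ≤ _ := this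
        exact le_of_mul_le_mul_left h7 h0
    have h7 : ‖d‖ ≤ 2 / c * (δ * ‖u‖) := by
      have : ‖d‖ = 2 / c * (c / 2 * ‖d‖) := by field_simp
      rw [this]
      exact mul_le_mul_of_nonneg_left h6 (by positivity)
    have h8 : S x i j - S x₀ i j = inner ℂ (e i) (T x d + (T x - T x₀) u) := by
      have h9 := entry_eq he (fun k => S x k j) i
      have h10 := entry_eq he (fun k => S x₀ k j) i
      rw [← hTw j] at h9
      rw [← hTw₀ j] at h10
      rw [← h9, ← h10, hud, map_add, sub_apply, ← hu, ← inner_sub_right]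
      congr 1
      abel
    rw [h8]
    have h9 : ‖T x‖ ≤ ‖T x₀‖ + c / 2 := by
      have : T x = T x₀ + (T x - T x₀) := by abel
      calc ‖T x‖ = ‖T x₀ + (T x - T x₀)‖ := by rw [← this]
        _ ≤ ‖T x₀‖ + ‖T x - T x₀‖ := norm_add_le _ _
        _ ≤ ‖T x₀‖ + c / 2 := by linarith
    calc ‖inner ℂ (e i) (T x d + (T x - T x₀) u)‖
        ≤ ‖e i‖ * ‖T x d + (T x - T x₀) u‖ := norm_inner_le_norm _ _
      _ = ‖T x d + (T x - T x₀) u‖ := by rw [he.1 i, one_mul]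
      _ ≤ ‖T x d‖ + ‖(T x - T x₀) u‖ := norm_add_le _ _
      _ ≤ ‖T x‖ * ‖d‖ + δ * ‖u‖ := add_le_add ((T x).le_opNorm d) ((T x - T x₀).le_opNorm u)
      _ ≤ (‖T x₀‖ + c / 2) * (2 / c * (δ * ‖u‖)) + δ * ‖u‖ := by
          have := mul_le_mul h9 h7 (norm_nonneg d) (by positivity)
          linarith
      _ = ((‖T x₀‖ + c / 2) * (2 / c) + 1) * ‖u‖ * δ := by ring
  have hT0 : Tendsto (fun x => ‖T x - T x₀‖) (𝓝[U] x₀) (𝓝 0) := by
    have h1 : Tendsto T (𝓝[U] x₀) (𝓝 (T x₀)) := hT x₀ hx₀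
    exact tendsto_iff_norm_sub_tendsto_zero.1 h1
  have hev : ∀ᶠ x in 𝓝[U] x₀, x ∈ U ∧ ‖T x - T x₀‖ ≤ c / 2 := by
    have h1 : ∀ᶠ x in 𝓝[U] x₀, ‖T x - T x₀‖ < c / 2 :=
      hT0.eventually (gt_mem_nhds (by positivity))
    filter_upwards [h1, self_mem_nhdsWithin] with x hx hxU
    exact ⟨hxU, hx.le⟩
  change Tendsto S (𝓝[U] x₀) (𝓝 (S x₀))
  refine tendsto_pi_nhds.2 fun i => tendsto_pi_nhds.2 fun j => ?_
  rw [tendsto_iff_norm_sub_tendsto_zero]
  refine squeeze_zero' (Eventually.of_forall fun x => norm_nonneg _) ?_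
    (g := fun x => ((‖T x₀‖ + c / 2) * (2 / c) + 1) * ‖e j + w₀ j‖ * ‖T x - T x₀‖) ?_
  · filter_upwards [hev] with x hx
    exact key x hx.1 hx.2 i j
  · have := hT0.const_mul (((‖T x₀‖ + c / 2) * (2 / c) + 1) * ‖e j + w₀ j‖)
    rwa [mul_zero] at this

end Pool.Agent.Helper72.SI
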