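import Pool.Agent.Helper99.SI.StT

set_option autoImplicit false

/-! Project SI (helper99), MP_181f94_al: module T3 (the uniform bound). -/

namespace Pool.Agent.Helper72.SI

open Pool.Agent.Helper99.SI Pool.Agent.Helper92 Pool.Agent.Helper92.LV

/-- A Laurent polynomial with infinitely many zeros vanishes. -/
theorem laurent_zero (F : Finset ℤ) (a : ℤ → ℂ) (Z : Set ℂ) (hZ : Z.Infinite) (h0 : ∀ z ∈ Z, z ≠ 0)
    (h : ∀ z ∈ Z, ∑ j ∈ F, z ^ j * a j = 0) : ∀ j ∈ F, a j = 0 := by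
  obtain ⟨N, hN⟩ : ∃ N : ℕ, ∀ j ∈ F, 0 ≤ j + (N : ℤ) := by
    refine ⟨∑ j ∈ F, j.natAbs, fun j hj => ?_⟩
    have h1 : j.natAbs ≤ ∑ j ∈ F, j.natAbs :=
      Finset.single_le_sum (f := fun j : ℤ => j.natAbs) (fun _ _ => Nat.zero_le _) hj
    omega
  let P : Polynomial ℂ := ∑ j ∈ F, Polynomial.monomial (j + (N : ℤ)).toNat (a j)
  have hP : P = 0 := by
    apply Polynomial.eq_zero_of_infinite_isRoot
    refine hZ.mono fun z hz => ?_
    show P.eval z = 0
    have hz0 := h0 z hz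
    have h2 : P.eval z = z ^ N * ∑ j ∈ F, z ^ j * a j := by
      simp only [P, Polynomial.eval_finsetSum, Polynomial.eval_monomial, Finset.mul_sum]
      refine Finset.sum_congr rfl fun j hj => ?_
      have h3 : z ^ (j + (N : ℤ)).toNat = z ^ N * z ^ j := by
        rw [← zpow_natCast z (j + (N : ℤ)).toNat, Int.toNat_of_nonneg (hN j hj), zpow_add₀ hz0, zpow_natCast]
        ring
      rw [h3]
      ring
    rw [h2, h z hz, mul_zero]
  intro j hj
  have h4 : P.coeff (j + (N : ℤ)).toNat = a j := by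
    simp only [P, Polynomial.finsetSum_coeff, Polynomial.coeff_monomial]
    rw [Finset.sum_eq_single j]
    · rw [if_pos rfl]
    · intro i hi hij
      rw [if_neg]
      intro h5
      apply hij
      have := hN i hi
      have := hN j hj
      omega
    · intro h5
      exact absurd hj h5
  rw [← h4, hP, Polynomial.coeff_zero]

/-- The same with coefficients in a vector space, modulo a subspace. -/
theorem laurent_mem {L : Type} [AddCommGroup L] [Module ℂ L] (S : Submodule ℂ L) (F : Finset ℤ) (a : ℤ → L)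
    (Z : Set ℂ) (hZ : Z.Infinite) (h0 : ∀ z ∈ Z, z ≠ 0) (h : ∀ z ∈ Z, ∑ j ∈ F, z ^ j • a j ∈ S) :
    ∀ j ∈ F, a j ∈ S := by
  intro j hj
  by_contra hc
  obtain ⟨f, hf, hf'⟩ := Submodule.exists_dual_map_eq_bot_of_notMem hc inferInstance
  have hS : ∀ s ∈ S, f s = 0 := by
    intro s hs
    have h1 : f s ∈ S.map f := Submodule.mem_map_of_mem hs
    rw [hf'] at h1
    exact (Submodule.mem_bot ℂ).1 h1
  apply hf
  refine laurent_zero F (fun j => f (a j)) Z hZ h0 ?_ j hj
  intro z hz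
  have h2 := hS _ (h z hz)
  rw [map_sum] at h2
  simpa only [map_smul, smul_eq_mul] using h2

theorem hT3 (_h1 : StA0) (h2 : StT2) : StT3 := by
  intro n V E _ _ _ _ G L _ _ _ _ T hn hsc hto
  obtain ⟨-, -, hc⟩ := h2 n V E G L T hn hsc hto
  have hex : ∃ m0 : ℕ, {z : ℂ | z ≠ 0 ∧ ∀ μ κ : W n, m0 ≤ κ.length →
      T.b.ev z (wd T.fE.e μ) * wd T.fE.e κ ∈ Submodule.span ℂ (Set.range (wd T.fE.e))}.Infinite := by
    by_contra hcon
    push Not at hcon
    have h3 : {z : ℂ | z ≠ 0} ⊆ ⋃ m0 : ℕ, {z : ℂ | z ≠ 0 ∧ ∀ μ κ : W n, m0 ≤ κ.length →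
        T.b.ev z (wd T.fE.e μ) * wd T.fE.e κ ∈ Submodule.span ℂ (Set.range (wd T.fE.e))} := by
      intro z hz
      obtain ⟨m, hm⟩ := hc z hz
      exact Set.mem_iUnion.2 ⟨m, hz, hm⟩
    have h4 : {z : ℂ | z ≠ 0}.Countable :=
      (Set.countable_iUnion fun m => (hcon m).countable).mono h3
    have h5 : (Set.univ : Set ℂ).Countable := by
      have : (Set.univ : Set ℂ) = {z : ℂ | z ≠ 0} ∪ {0} := by
        ext z
        simp only [Set.mem_univ, Set.mem_union, Set.mem_singleton_iff, true_iff]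
        by_cases hz : z = 0
        · exact Or.inr hz
        · exact Or.inl hz
      rw [this]
      exact h4.union (Set.countable_singleton 0)
    exact not_countable_complex h5
  obtain ⟨m0, hm0⟩ := hex
  refine ⟨m0, fun μ κ j hκ => ?_⟩
  have hfin := T.b.fin (wd T.fE.e μ)
  by_cases hj : T.b.p j (wd T.fE.e μ) = 0
  · rw [hj, zero_mul]
    exact Submodule.zero_mem _
  · refine laurent_mem _ hfin.toFinset (fun j => T.b.p j (wd T.fE.e μ) * wd T.fE.e κ) _ hm0
      (fun z hz => hz.1) ?_ j ((Set.Finite.mem_toFinset hfin).2 hj)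
    intro z hz
    have h6 := hz.2 μ κ hκ
    have h7 : T.b.ev z (wd T.fE.e μ) = ∑ j ∈ hfin.toFinset, z ^ j • T.b.p j (wd T.fE.e μ) := by
      show ∑ᶠ j : ℤ, z ^ j • T.b.p j (wd T.fE.e μ) = _
      apply finsum_eq_sum_of_support_subset
      intro i hi
      rw [Finset.mem_coe, Set.Finite.mem_toFinset]
      intro h8
      apply hi
      show z ^ i • T.b.p i (wd T.fE.e μ) = 0
      rw [h8, smul_zero]
    rw [h7, Finset.sum_mul] at h6
    simpa only [smul_mul_assoc] using h6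

end Pool.Agent.Helper72.SI
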